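import Pool.Agent.Helper53.UR.Goals
import Pool.Agent.Helper53.CTG.All

/-!
# PROJECT UR (MP_c578c8_lc): packet STP
-/

namespace Pool.Agent.Helper84.UR

open Pool.Agent.Helper1.TE (Gad app)
open Pool.Agent.Helper65.LinSpace (dig ifz)
open Pool.Agent.Helper53.CTG (De De.k De.m De.e De.f De.v De.i De.T sub root Nt Hb Et Eb Fb Gb Pb
  bigT bigX bigS bigA gadC ev op runs toF dec exec gA gY gZ OK9 TabOK WF ok9 diOK eeOK gDES
  runs_succ_eq_some runs_congr)
open Pool.Agent.Helper53.UR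

theorem two_mul_pow (b : ℕ) : (2 ^ b) ^ 2 = 2 ^ (2 * b) := by
  rw [← pow_mul, mul_comm]

theorem gSTP : GoalSTP := by
  intro β M hM o ρ τ g X S A hτ hg hX hS hCh D hD
  have hq := hM.hq o
  have hqN := hM.hN o
  have hb := hM.hb o
  have hc := hM.hc o
  obtain ⟨p1, p2, p3, p4, p5, p6, p7, p8, p9, p10, -⟩ :=
    Pool.Agent.Helper85.CTG.gPB (M.N o) (M.q o) (M.b o) (M.c o) hq hqN hb hc
  have hWe : M.W o = 2 ^ Et (M.N o) (M.q o) (M.b o) (M.c o) := hM.hW o
  have hopM : M.opM o ρ = op (gadC (M.b o) (2 ^ Et (M.N o) (M.q o) (M.b o) (M.c o))) (M.tst o ρ)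
      (M.t o) (M.q o) (M.c o) (root (M.N o) (M.q o)) (Nt (M.N o) (M.q o)) := by
    unfold UM.opM
    rw [hWe]
  rw [hWe]
  unfold UM.Rchd at hCh ⊢
  rw [hopM] at hCh ⊢
  generalize htt : M.wV o D A g = t
  have htw : t = ifz D.k (M.t o 2 D.v (A % 2 ^ M.c o) 0 0)
    (M.t o D.m D.v (g / 2 ^ (2 * M.b o)) (g / 2 ^ M.b o % 2 ^ M.b o) (g % 2 ^ M.b o)) := by
    rw [← htt]
    rfl
  have hht : ∀ m v x y z, M.t o m v x y z < 2 ^ M.b o := hM.ht o
  clear htt hopM hWe
  generalize M.tst o ρ = tst at *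
  generalize M.t o = tt at *
  generalize M.N o = N at *
  generalize M.q o = q at *
  generalize M.b o = b at *
  generalize M.c o = c at *
  set W := 2 ^ Et N q b c with hW
  have hok : OK9 (gadC b W) := ok9 b W hb p8
  have hr : TabOK (gadC b W) tt c :=
    ⟨fun m v x y z => hht m v x y z, Nat.pow_le_pow_right (by norm_num) hc⟩
  have hVdef : ∀ z : ℕ × ℕ, (gadC b W).V z ↔ z.1 < Pb b ^ (4 * b + 2) := fun z => Iff.rfl
  have hG : (gadC b W).G = Gb b := rfl
  have hst : ∀ z : ℕ × ℕ, (gadC b W).st z = z.2 := fun z => rfl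
  have hK3 : (gadC b W).K ^ 3 = 8 ^ b := by
    change (2 ^ b) ^ 3 = 8 ^ b
    rw [← pow_mul, mul_comm, pow_mul]
    norm_num
  have hPbpos : 0 < Pb b := by
    unfold Pb
    omega
  have hC0 : ∀ j : ℕ, (gadC b W).V ((fun _ => (0, 0) : ℕ → ℕ × ℕ) j) ∧
      (gadC b W).st ((fun _ => (0, 0) : ℕ → ℕ × ℕ) j) = 0 :=
    fun j => ⟨(hVdef _).2 (pow_pos hPbpos _), rfl⟩
  -- the descriptor
  have hWFD := @Pool.Agent.Helper94.CTG.gWFD
  have hWF : WF q (2 ^ Nt N q * 2) D := by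
    rw [hD]
    exact hWFD.2.1 q 2 (root N q) (Nt N q) τ (Nt N q) hq (hWFD.2.2 N q hq) le_rfl
  have hop : ∀ G s, op (gadC b W) tst tt q c (root N q) (Nt N q) τ G s =
      exec (gadC b W) tst tt c D G s := by
    intro G s
    have h1 := gDES.1 (gadC b W) tst tt q c (root N q) (Nt N q) τ G s
    rw [hD, gDES.2 q (root N q) (Nt N q) τ hτ]
    exact h1
  -- the guess
  have ht0 : D.k = 0 → t = tt 2 D.v (A % 2 ^ c) 0 0 := by
    intro hk
    rw [htw, hk]
    rfl
  have ht4 : D.k ≠ 0 → t = tt D.m D.v (gA (2 ^ b) g) (gY (2 ^ b) g) (gZ (2 ^ b) g) := by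
    intro hk
    rw [htw]
    unfold gA gY gZ
    rw [two_mul_pow]
    exact if_neg hk
  -- bounds of the old state
  obtain ⟨γ, hγ, hrun⟩ := hCh
  have hdi := @diOK _ (gadC b W) hok tst tt N q c τ A γ
    (fun _ => (0, 0)) (toF N q b X S) hr hq hqN (fun τ' => by rw [hK3]; exact hγ τ') hC0 hτ hrun
  have hdig : ∀ j, dig (2 ^ Eb b) X j < Pb b ^ (4 * b + 2) := fun j => hdi.1 j
  have hee := eeOK tst tt N q b c (2 ^ Nt N q * 2) g t X S
    A D hq hqN hb hc hWF hg hX hS hdig ht0 (fun hk => ht4 (by omega))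
  refine ⟨?_, ?_⟩
  · intro h0
    rw [hop]
    exact hee.1 h0
  · intro h0
    obtain ⟨C', hC1, hC2⟩ := hee.2 h0
    have hstep : op (gadC b W) tst tt q c (root N q) (Nt N q) τ g (toF N q b X S, A) =
        some (C', bigA c W D t A) := by
      rw [hop]
      exact hC1
    have hγ' : ∀ τ', Function.update γ τ g τ' < 8 ^ b := by
      intro τ'
      by_cases h : τ' = τ
      · rw [h, Function.update_self]
        exact hg
      · rw [Function.update_of_ne h]
        exact hγ τ'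
    have hrun' : runs (op (gadC b W) tst tt q c (root N q) (Nt N q)) (Function.update γ τ g)
        (τ + 1) (fun _ => (0, 0), 0) = some (C', bigA c W D t A) := by
      rw [runs_succ_eq_some]
      refine ⟨(toF N q b X S, A), ?_, ?_⟩
      · rw [← hrun]
        refine runs_congr fun τ' hτ' => ?_
        rw [Function.update_of_ne (by omega)]
      · rw [Function.update_self]
        exact hstep
    refine ⟨_, hstep, ⟨_, hγ', hrun'⟩, ?_⟩
    intro hτ1
    have hdi' := @diOK _ (gadC b W) hok tst tt N q c (τ + 1)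
      (bigA c W D t A) (Function.update γ τ g) (fun _ => (0, 0)) C' hr hq hqN
      (fun τ' => by rw [hK3]; exact hγ' τ') hC0 hτ1 hrun'
    obtain ⟨e1, e2, e3⟩ := hC2 (fun j hj => ⟨hdi'.1 j,
      lt_of_lt_of_le (by
        have h1 := hdi'.2.1 j hj
        rw [hG, hst] at h1
        exact h1) p3⟩)
    refine ⟨?_, e2, e3⟩
    rw [e1]

end Pool.Agent.Helper84.UR
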